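import Pool.Agent.N445.VW.BpMain
import Pool.Agent.H785R2.ABC.A12

/-! # Integral points on Mordell curves and integers with a small radical -/

set_option autoImplicit false

namespace T9h23.Sh

open Finset Polynomial
open Pool.Agent.H785R2.ABC (rad rad_pos')
open scoped Classical

/-- integers with a small radical -/
theorem rad_count (ε : ℝ) (hε : 0 < ε) : ∃ C : ℝ, 0 < C ∧ ∀ N : ℕ, 1 ≤ N → ∀ Y : ℝ, 0 ≤ Y →
    (((Icc 1 N).filter fun m => (rad m : ℝ) ≤ Y).card : ℝ) ≤ C * (N : ℝ) ^ ε * Y := by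
  obtain ⟨C, hC, h⟩ := Pool.Agent.H785R2.ABC.stmtA2 ε hε
  refine ⟨C, hC, fun N hN Y hY => ?_⟩
  have hsub : ((Icc 1 N).filter fun m => (rad m : ℝ) ≤ Y) ⊆
      (Icc 1 ⌊Y⌋₊).biUnion fun r => (Icc 1 N).filter fun m => rad m = r := by
    intro m hm
    rw [mem_filter] at hm
    rw [mem_biUnion]
    exact ⟨rad m, mem_Icc.mpr ⟨rad_pos' m, Nat.le_floor hm.2⟩, mem_filter.mpr ⟨hm.1, rfl⟩⟩
  calc (((Icc 1 N).filter fun m => (rad m : ℝ) ≤ Y).card : ℝ)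
      ≤ (((Icc 1 ⌊Y⌋₊).biUnion fun r => (Icc 1 N).filter fun m => rad m = r).card : ℝ) := by
        exact_mod_cast card_le_card hsub
    _ ≤ ∑ r ∈ Icc 1 ⌊Y⌋₊, (((Icc 1 N).filter fun m => rad m = r).card : ℝ) := by
        exact_mod_cast card_biUnion_le
    _ ≤ ∑ _r ∈ Icc 1 ⌊Y⌋₊, C * (N : ℝ) ^ ε := sum_le_sum fun r _ => h N hN r
    _ = (⌊Y⌋₊ : ℝ) * (C * (N : ℝ) ^ ε) := by
        rw [sum_const, Nat.card_Icc, nsmul_eq_mul]
        simp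
    _ ≤ Y * (C * (N : ℝ) ^ ε) := by
        refine mul_le_mul_of_nonneg_right (Nat.floor_le hY) (by positivity)
    _ = _ := by ring

/-- the radical and the sets of primes -/
theorem rad_le (S : Finset ℕ) (hS : ∀ p ∈ S, p.Prime) (a D : ℤ) (ha : a ≠ 0) (hD : D ≠ 0)
    (haS : ∀ p : ℕ, p.Prime → (p : ℤ) ∣ a → p ∈ S) : rad (a * D).natAbs ≤ (∏ p ∈ S, p) * D.natAbs := by
  unfold rad
  rw [Int.natAbs_mul, Nat.primeFactors_mul (Int.natAbs_ne_zero.2 ha) (Int.natAbs_ne_zero.2 hD)]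
  have h1 : a.natAbs.primeFactors ∪ D.natAbs.primeFactors ⊆ S ∪ D.natAbs.primeFactors := by
    apply union_subset_union_left
    intro p hp
    have hpp := Nat.prime_of_mem_primeFactors hp
    exact haS p hpp (Int.natCast_dvd.2 (Nat.dvd_of_mem_primeFactors hp))
  calc ∏ p ∈ a.natAbs.primeFactors ∪ D.natAbs.primeFactors, p ≤ ∏ p ∈ S ∪ D.natAbs.primeFactors, p := by
        refine prod_le_prod_of_subset_of_one_le' h1 ?_
        intro p hp _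
        rcases mem_union.1 hp with h | h
        · exact (hS p h).one_le
        · exact (Nat.prime_of_mem_primeFactors h).one_le
    _ ≤ (∏ p ∈ S, p) * ∏ p ∈ D.natAbs.primeFactors, p := by
        have h2 := prod_union_inter (s₁ := S) (s₂ := D.natAbs.primeFactors) (f := fun p : ℕ => p)
        rw [← h2]
        apply Nat.le_mul_of_pos_right
        refine prod_pos fun p hp => ?_
        exact (hS p (mem_inter.1 hp).1).pos
    _ ≤ (∏ p ∈ S, p) * D.natAbs := by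
        apply Nat.mul_le_mul_left
        exact Nat.le_of_dvd (Int.natAbs_pos.2 hD) (Nat.prod_primeFactors_dvd _)

theorem pol_facts (k : ℤ) (hk : k ≠ 0) : (X ^ 2 - Polynomial.C k : ℤ[X]).natDegree = 2 ∧
    ((X ^ 2 - Polynomial.C k : ℤ[X]).map (Int.castRingHom ℚ)).Separable ∧
    (X ^ 2 - Polynomial.C k : ℤ[X]).leadingCoeff = 1 ∧
    (∀ y : ℤ, (X ^ 2 - Polynomial.C k : ℤ[X]).eval y = y ^ 2 - k) ∧
    (∀ y : ℤ, (derivative (X ^ 2 - Polynomial.C k : ℤ[X])).eval y = 2 * y) := by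
  refine ⟨natDegree_X_pow_sub_C, ?_, leadingCoeff_X_pow_sub_C (by norm_num), ?_, ?_⟩
  · rw [Polynomial.map_sub, Polynomial.map_pow, map_X, map_C]
    have h2 : ((2 : ℕ) : ℚ) ≠ 0 := by norm_num
    have h3 : (Int.castRingHom ℚ) k ≠ 0 := by
      rw [eq_intCast]
      exact_mod_cast hk
    exact separable_X_pow_sub_C _ h2 h3
  · intro y
    simp only [eval_sub, eval_pow, eval_X, eval_C]
  · intro y
    simp only [derivative_sub, derivative_X_pow, derivative_C, sub_zero, eval_mul, eval_pow, eval_X]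
    norm_num

theorem cond (k : ℤ) (q : ℕ) (hq : q.Prime) (hqN : ¬ q ∣ 6 * k.natAbs) :
    ¬ (q : ℤ) ∣ 1 ∧ ¬ q ∣ 3 ∧ (∀ y : ℤ, (q : ℤ) ∣ y ^ 2 - k → ¬ (q : ℤ) ∣ 2 * y) := by
  have hq2 : ¬ q ∣ 6 := fun h2 => hqN (Dvd.dvd.mul_right h2 _)
  have hqk : ¬ (q : ℤ) ∣ k := fun h2 => hqN (Dvd.dvd.mul_left (Int.natCast_dvd.1 h2) _)
  refine ⟨?_, ?_, ?_⟩
  · intro h2
    have h3 : (q : ℤ) ∣ ((1 : ℕ) : ℤ) := by rw [Nat.cast_one]; exact h2
    rw [Int.natCast_dvd_natCast, Nat.dvd_one] at h3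
    exact hq.one_lt.ne' h3
  · intro h2
    exact hq2 (h2.trans ⟨2, rfl⟩)
  · intro y h2 h3
    have hqp : Prime (q : ℤ) := Nat.prime_iff_prime_int.1 hq
    rcases hqp.dvd_or_dvd h3 with h4 | h4
    · apply hq2
      have h5 : q ∣ 2 := by exact_mod_cast h4
      exact h5.trans ⟨3, rfl⟩
    · apply hqk
      have h5 : (q : ℤ) ∣ y ^ 2 := Dvd.dvd.pow h4 (by norm_num)
      have h6 := dvd_sub h5 h2
      rwa [sub_sub_cancel] at h6

/-- the ordinates of the integral points of one Mordell curve -/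
theorem points (A : ℕ) (ε : ℝ) (hε : 0 < ε) : ∃ c : ℝ, 0 < c ∧ ∀ Y : ℕ, 1 ≤ Y → ∀ k : ℤ, k ≠ 0 →
    6 * |k| ≤ (Y : ℤ) ^ A → ∀ T : Finset ℤ, (∀ y ∈ T, |y| ≤ Y ∧ ∃ x : ℤ, |x| ≤ (Y : ℤ) ^ A ∧ y ^ 2 = x ^ 3 + k) →
    (T.card : ℝ) ≤ c * (Y : ℝ) ^ (1 / 3 + ε) := by
  obtain ⟨c, hc, h⟩ := Pool.Agent.N445.VW.bp 3 (by norm_num) 2 (by norm_num) A ε hε
  refine ⟨c, hc, fun Y hY k hk hkY T hT => ?_⟩
  obtain ⟨p1, p2, p3, p4, p5⟩ := pol_facts k hk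
  obtain ⟨F, hF⟩ : ∃ F : ℤ[X], F = X ^ 2 - Polynomial.C k := ⟨_, rfl⟩
  rw [← hF] at p1 p2 p3 p4 p5
  obtain ⟨N, hN⟩ : ∃ N : ℕ, N = 6 * k.natAbs := ⟨_, rfl⟩
  have hN1 : 1 ≤ N := by
    have := Int.natAbs_pos.2 hk
    omega
  have hNY : (N : ℝ) ≤ (Y : ℝ) ^ (A : ℝ) := by
    have h2 : (N : ℤ) ≤ (Y : ℤ) ^ A := by
      rw [hN]
      push_cast
      exact hkY
    rw [Real.rpow_natCast]
    exact_mod_cast h2
  have hT' : ∀ t ∈ T, |t| ≤ (Y : ℤ) ∧ ∃ z : ℤ, |z| ≤ (Y : ℤ) ^ A ∧ 1 * z ^ 3 = F.eval t := by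
    intro y hy
    obtain ⟨hy1, x, hx1, hx2⟩ := hT y hy
    refine ⟨hy1, x, hx1, ?_⟩
    rw [p4, one_mul, hx2, add_sub_cancel_right]
  have hgood : ∀ q : ℕ, q.Prime → ¬ q ∣ N → ¬ (q : ℤ) ∣ 1 ∧ ¬ q ∣ 3 ∧ ¬ (q : ℤ) ∣ F.leadingCoeff ∧
        ∀ t ∈ T, (q : ℤ) ∣ F.eval t → ¬ (q : ℤ) ∣ (derivative F).eval t := by
    intro q hq hqN
    rw [hN] at hqN
    obtain ⟨c1, c2, c3⟩ := cond k q hq hqN
    refine ⟨c1, c2, by rw [p3]; exact c1, ?_⟩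
    intro t _ h2
    rw [p4] at h2
    rw [p5]
    exact c3 t h2
  have h1 := h Y hY F p1 p2 1 one_ne_zero N hN1 hNY T hT' hgood
  have e : (1 / ((3 : ℕ) : ℝ) + ε) = 1 / 3 + ε := by norm_num
  rw [e] at h1
  exact h1

end T9h23.Sh
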