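import Pool.Agent.T9h23.Sh.S1

/-! # Pairs with a small radical of `y ^ 2 - x ^ 3` -/

set_option autoImplicit false

namespace T9h23.Sh

open Finset
open Pool.Agent.H785R2.ABC (rad rad_pos')
open scoped Classical

/-- the exceptional pairs -/
def Ex (ε : ℝ) (x y : ℤ) : Prop := y ^ 2 ≠ x ^ 3 ∧
  (rad (y ^ 2 - x ^ 3).natAbs : ℝ) ^ (1 + ε) < max (|(x : ℝ)| ^ (1 / 2 : ℝ)) (|(y : ℝ)| ^ (1 / 3 : ℝ))

noncomputable def BB (T Y : ℕ) : Finset (ℤ × ℤ) := (Icc (-((T : ℤ) ^ 2)) ((T : ℤ) ^ 2)) ×ˢ (Icc (-(Y : ℤ)) Y)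

theorem mem_BB (T Y : ℕ) (p : ℤ × ℤ) : p ∈ BB T Y ↔ |p.1| ≤ (T : ℤ) ^ 2 ∧ |p.2| ≤ (Y : ℤ) := by
  unfold BB
  rw [mem_product, mem_Icc, mem_Icc, abs_le, abs_le]

/-- the values with a small radical -/
noncomputable def KK (T : ℕ) (R : ℝ) : Finset ℤ :=
  (Icc (-((2 * T ^ 6 : ℕ) : ℤ)) ((2 * T ^ 6 : ℕ) : ℤ)).filter (fun k => k ≠ 0 ∧ (rad k.natAbs : ℝ) ≤ R)

theorem KK_card (T : ℕ) (R : ℝ) : (KK T R).card ≤
    2 * ((Icc 1 (2 * T ^ 6)).filter fun m => (rad m : ℝ) ≤ R).card := by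
  set S := (Icc 1 (2 * T ^ 6)).filter fun m => (rad m : ℝ) ≤ R with hS
  have h1 : KK T R ⊆ S.image (fun m : ℕ => (m : ℤ)) ∪ S.image (fun m : ℕ => -(m : ℤ)) := by
    intro k hk
    unfold KK at hk
    rw [mem_filter, mem_Icc] at hk
    obtain ⟨⟨h2, h3⟩, h4, h5⟩ := hk
    have h6 : k.natAbs ∈ S := by
      rw [hS, mem_filter, mem_Icc]
      refine ⟨⟨?_, ?_⟩, h5⟩
      · exact Nat.one_le_iff_ne_zero.2 (Int.natAbs_ne_zero.2 h4)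
      · omega
    rw [mem_union, mem_image, mem_image]
    rcases Int.natAbs_eq k with h7 | h7
    · left; exact ⟨k.natAbs, h6, h7.symm⟩
    · right; exact ⟨k.natAbs, h6, h7.symm⟩
  calc (KK T R).card ≤ _ := card_le_card h1
    _ ≤ _ := card_union_le _ _
    _ ≤ S.card + S.card := Nat.add_le_add card_image_le card_image_le
    _ = 2 * S.card := by ring

theorem max_le_T (T Y : ℕ) (hY : Y ≤ T ^ 3) (x y : ℤ) (hx : |x| ≤ (T : ℤ) ^ 2) (hy : |y| ≤ (Y : ℤ)) :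
    max (|(x : ℝ)| ^ (1 / 2 : ℝ)) (|(y : ℝ)| ^ (1 / 3 : ℝ)) ≤ T := by
  have hT0 : (0 : ℝ) ≤ T := Nat.cast_nonneg T
  apply max_le
  · have h1 : |(x : ℝ)| ≤ (T : ℝ) ^ 2 := by exact_mod_cast hx
    calc |(x : ℝ)| ^ (1 / 2 : ℝ) ≤ ((T : ℝ) ^ 2) ^ (1 / 2 : ℝ) := Real.rpow_le_rpow (abs_nonneg _) h1 (by norm_num)
      _ = T := by
          rw [← Real.rpow_natCast, ← Real.rpow_mul hT0]
          norm_num
  · have h1 : |(y : ℝ)| ≤ (T : ℝ) ^ 3 := by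
      have h2 : |y| ≤ ((T ^ 3 : ℕ) : ℤ) := hy.trans (by exact_mod_cast hY)
      exact_mod_cast h2
    calc |(y : ℝ)| ^ (1 / 3 : ℝ) ≤ ((T : ℝ) ^ 3) ^ (1 / 3 : ℝ) := Real.rpow_le_rpow (abs_nonneg _) h1 (by norm_num)
      _ = T := by
          rw [← Real.rpow_natCast, ← Real.rpow_mul hT0]
          norm_num

theorem k_le (T Y : ℕ) (hY : Y ≤ T ^ 3) (x y : ℤ) (hx : |x| ≤ (T : ℤ) ^ 2) (hy : |y| ≤ (Y : ℤ)) :
    |y ^ 2 - x ^ 3| ≤ ((2 * T ^ 6 : ℕ) : ℤ) := by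
  have h1 : |y| ≤ (T : ℤ) ^ 3 := hy.trans (by exact_mod_cast hY)
  have h2 : |y ^ 2| ≤ ((T : ℤ) ^ 3) ^ 2 := by rw [abs_pow]; exact pow_le_pow_left₀ (abs_nonneg _) h1 2
  have h3 : |x ^ 3| ≤ ((T : ℤ) ^ 2) ^ 3 := by rw [abs_pow]; exact pow_le_pow_left₀ (abs_nonneg _) hx 3
  have h4 := abs_sub (y ^ 2) (x ^ 3)
  have h5 : ((T : ℤ) ^ 3) ^ 2 = (T : ℤ) ^ 6 := by ring
  have h6 : ((T : ℤ) ^ 2) ^ 3 = (T : ℤ) ^ 6 := by ring
  rw [h5] at h2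
  rw [h6] at h3
  push_cast
  linarith

theorem pairs (ε : ℝ) (hε : 0 < ε) : ∃ C : ℝ, 0 < C ∧ ∀ T Y : ℕ, 1 ≤ T → T ≤ Y → Y ≤ T ^ 3 →
    (((BB T Y).filter (fun p => Ex ε p.1 p.2)).card : ℝ) ≤
      C * (T : ℝ) ^ (1 - ε / (2 * (1 + ε))) * (Y : ℝ) ^ (1 / 3 : ℝ) := by
  obtain ⟨δ, hδ⟩ : ∃ δ : ℝ, δ = ε / (1 + ε) := ⟨_, rfl⟩
  have hδ0 : 0 < δ := by rw [hδ]; positivity
  have hδ1 : δ ≤ 1 := by rw [hδ, div_le_one (by positivity)]; linarith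
  have hδ2 : 1 / (1 + ε) = 1 - δ := by rw [hδ]; field_simp; ring
  have hδ3 : ε / (2 * (1 + ε)) = δ / 2 := by rw [hδ]; field_simp
  rw [hδ3]
  obtain ⟨e, he⟩ : ∃ e : ℝ, e = δ / 18 := ⟨_, rfl⟩
  have he0 : 0 < e := by rw [he]; positivity
  have he1 : e ≤ 1 := by rw [he]; linarith
  obtain ⟨C₁, hC₁, hrad⟩ := rad_count e he0
  obtain ⟨C₂, hC₂, hpts⟩ := points 8 e he0
  refine ⟨4 * C₁ * C₂ + 1045, by positivity, ?_⟩
  intro T Y hT hTY hY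
  have hTr : (1 : ℝ) ≤ T := by exact_mod_cast hT
  have hTYr : (T : ℝ) ≤ Y := by exact_mod_cast hTY
  have hYr : (1 : ℝ) ≤ Y := hTr.trans hTYr
  have hT0 : (0 : ℝ) < T := by linarith
  have hY0 : (0 : ℝ) < Y := by linarith
  set E := (BB T Y).filter (fun p => Ex ε p.1 p.2) with hE
  have hTp : 1 ≤ (T : ℝ) ^ (1 - δ / 2) := Real.one_le_rpow hTr (by linarith)
  have hYp : 1 ≤ (Y : ℝ) ^ (1 / 3 : ℝ) := Real.one_le_rpow hYr (by norm_num)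
  have hprod : 1 ≤ (T : ℝ) ^ (1 - δ / 2) * (Y : ℝ) ^ (1 / 3 : ℝ) := by nlinarith
  obtain ⟨G, hG⟩ : ∃ G : ℝ, G = (T : ℝ) ^ (1 - δ / 2) * (Y : ℝ) ^ (1 / 3 : ℝ) := ⟨_, rfl⟩
  rw [mul_assoc, ← hG]
  rw [← hG] at hprod
  have hCC : 0 < 4 * C₁ * C₂ := by positivity
  by_cases hT4 : T < 4
  · have h1 : E.card ≤ 1045 := by
      have h2 : E.card ≤ (BB T Y).card := card_filter_le _ _
      have h3 : (BB T Y).card = (2 * T ^ 2 + 1) * (2 * Y + 1) := by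
        unfold BB
        rw [card_product, Int.card_Icc, Int.card_Icc]
        congr 1
        · have : ((T : ℤ) ^ 2 + 1 - -((T : ℤ) ^ 2)) = ((2 * T ^ 2 + 1 : ℕ) : ℤ) := by push_cast; ring
          rw [this, Int.toNat_natCast]
        · omega
      have h4 : T ^ 2 ≤ 9 := by nlinarith
      have h5 : Y ≤ 27 := by
        have h6 : T ^ 3 ≤ 3 ^ 3 := Nat.pow_le_pow_left (by omega) 3
        omega
      calc E.card ≤ (2 * T ^ 2 + 1) * (2 * Y + 1) := by rw [← h3]; exact h2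
        _ ≤ (2 * 9 + 1) * (2 * 27 + 1) := Nat.mul_le_mul (by omega) (by omega)
        _ = 1045 := by norm_num
    have h2 : (E.card : ℝ) ≤ 1045 := by exact_mod_cast h1
    nlinarith
  push Not at hT4
  obtain ⟨R, hR⟩ : ∃ R : ℝ, R = (T : ℝ) ^ (1 - δ) := ⟨_, rfl⟩
  have hR0 : 0 ≤ R := by rw [hR]; positivity
  have hmap : ∀ p ∈ E, p.2 ^ 2 - p.1 ^ 3 ∈ KK T R := by
    intro p hp
    rw [hE, mem_filter, mem_BB] at hp
    obtain ⟨⟨hx, hy⟩, hne, hlt⟩ := hp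
    unfold KK
    rw [mem_filter, mem_Icc, ← abs_le]
    refine ⟨k_le T Y hY p.1 p.2 hx hy, sub_ne_zero.2 hne, ?_⟩
    have h1 := hlt.le.trans (max_le_T T Y hY p.1 p.2 hx hy)
    obtain ⟨ρ, hρ⟩ : ∃ ρ : ℝ, ρ = (rad (p.2 ^ 2 - p.1 ^ 3).natAbs : ℝ) := ⟨_, rfl⟩
    rw [← hρ] at h1 ⊢
    have hρ0 : 0 ≤ ρ := by rw [hρ]; positivity
    calc ρ = (ρ ^ (1 + ε)) ^ (1 / (1 + ε)) := by
          rw [← Real.rpow_mul hρ0, mul_one_div_cancel (by positivity), Real.rpow_one]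
      _ ≤ (T : ℝ) ^ (1 / (1 + ε)) := Real.rpow_le_rpow (by positivity) h1 (by positivity)
      _ = R := by rw [hR, hδ2]
  have hfib : ∀ k ∈ KK T R, ((E.filter (fun p => p.2 ^ 2 - p.1 ^ 3 = k)).card : ℝ) ≤ C₂ * (Y : ℝ) ^ (1 / 3 + e) := by
    intro k hk
    unfold KK at hk
    rw [mem_filter, mem_Icc, ← abs_le] at hk
    obtain ⟨hk1, hk2, _⟩ := hk
    have hinj : Set.InjOn (fun p : ℤ × ℤ => p.2) ((E.filter (fun p => p.2 ^ 2 - p.1 ^ 3 = k) : Finset (ℤ × ℤ)) : Set (ℤ × ℤ)) := by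
      intro p hp q hq hpq
      rw [mem_coe, mem_filter] at hp hq
      have h1 : p.2 = q.2 := hpq
      have h2 : p.1 ^ 3 = q.1 ^ 3 := by
        have h3 := hp.2
        have h4 := hq.2
        rw [h1] at h3
        linarith
      have h3 : p.1 = q.1 := (Odd.strictMono_pow (by decide : Odd 3)).injective h2
      exact Prod.ext h3 h1
    rw [← card_image_of_injOn hinj]
    refine hpts Y (hT.trans hTY) k hk2 ?_ _ ?_
    · have h1 : 12 * T ^ 6 ≤ Y ^ 8 := by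
        calc 12 * T ^ 6 ≤ T ^ 2 * T ^ 6 := Nat.mul_le_mul_right _ (by nlinarith)
          _ = T ^ 8 := by ring
          _ ≤ Y ^ 8 := Nat.pow_le_pow_left hTY 8
      have h2 : ((12 * T ^ 6 : ℕ) : ℤ) ≤ ((Y ^ 8 : ℕ) : ℤ) := by exact_mod_cast h1
      push_cast at h2 hk1
      linarith
    · intro y hy
      rw [mem_image] at hy
      obtain ⟨p, hp, rfl⟩ := hy
      rw [mem_filter, hE, mem_filter, mem_BB] at hp
      obtain ⟨⟨⟨hx, hy⟩, _⟩, hpk⟩ := hp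
      refine ⟨hy, p.1, ?_, by linarith⟩
      refine hx.trans ?_
      have h1 : T ^ 2 ≤ Y ^ 8 := by
        calc T ^ 2 ≤ T ^ 8 := Nat.pow_le_pow_right hT (by norm_num)
          _ ≤ Y ^ 8 := Nat.pow_le_pow_left hTY 8
      exact_mod_cast h1
  have hcard : (E.card : ℝ) ≤ (KK T R).card * (C₂ * (Y : ℝ) ^ (1 / 3 + e)) := by
    have h1 := card_eq_sum_card_fiberwise (f := fun p : ℤ × ℤ => p.2 ^ 2 - p.1 ^ 3) (s := E) (t := KK T R) hmap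
    have h2 : (E.card : ℝ) = ∑ k ∈ KK T R, ((E.filter (fun p => p.2 ^ 2 - p.1 ^ 3 = k)).card : ℝ) := by
      rw [h1]; push_cast; rfl
    rw [h2]
    refine (Finset.sum_le_card_nsmul _ _ _ hfib).trans (le_of_eq (nsmul_eq_mul _ _))
  have hKK : ((KK T R).card : ℝ) ≤ 2 * (C₁ * ((2 * T ^ 6 : ℕ) : ℝ) ^ e * R) := by
    have h1 := hrad (2 * T ^ 6) (by
      have : 1 ≤ T ^ 6 := Nat.one_le_pow _ _ hT
      omega) R hR0
    have h2 : ((KK T R).card : ℝ) ≤ 2 * (((Icc 1 (2 * T ^ 6)).filter fun m => (rad m : ℝ) ≤ R).card : ℝ) := by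
      exact_mod_cast KK_card T R
    linarith
  have h2T : ((2 * T ^ 6 : ℕ) : ℝ) ^ e ≤ 2 * (T : ℝ) ^ (6 * e) := by
    push_cast
    rw [Real.mul_rpow (by norm_num) (by positivity), ← Real.rpow_natCast, ← Real.rpow_mul hT0.le]
    have h3 : (2 : ℝ) ^ e ≤ 2 := by
      calc (2 : ℝ) ^ e ≤ 2 ^ (1 : ℝ) := Real.rpow_le_rpow_of_exponent_le (by norm_num) he1
        _ = 2 := Real.rpow_one 2
    push_cast
    gcongr
  have hYe : (Y : ℝ) ^ (1 / 3 + e) ≤ (Y : ℝ) ^ (1 / 3 : ℝ) * (T : ℝ) ^ (3 * e) := by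
    rw [Real.rpow_add hY0]
    have h3 : (Y : ℝ) ^ e ≤ (T : ℝ) ^ (3 * e) := by
      have h4 : (Y : ℝ) ≤ (T : ℝ) ^ (3 : ℝ) := by
        have : (Y : ℝ) ≤ (T : ℝ) ^ 3 := by exact_mod_cast hY
        rw [← Real.rpow_natCast] at this
        exact_mod_cast this
      calc (Y : ℝ) ^ e ≤ ((T : ℝ) ^ (3 : ℝ)) ^ e := Real.rpow_le_rpow hY0.le h4 he0.le
        _ = (T : ℝ) ^ (3 * e) := by rw [← Real.rpow_mul hT0.le]
    gcongr
  have hexp : (T : ℝ) ^ (6 * e) * R * (T : ℝ) ^ (3 * e) = (T : ℝ) ^ (1 - δ / 2) := by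
    rw [hR, ← Real.rpow_add hT0, ← Real.rpow_add hT0]
    congr 1
    rw [he]
    ring
  calc (E.card : ℝ) ≤ (KK T R).card * (C₂ * (Y : ℝ) ^ (1 / 3 + e)) := hcard
    _ ≤ (2 * (C₁ * (2 * (T : ℝ) ^ (6 * e)) * R)) * (C₂ * ((Y : ℝ) ^ (1 / 3 : ℝ) * (T : ℝ) ^ (3 * e))) := by
        apply mul_le_mul _ _ (by positivity) (by positivity)
        · refine hKK.trans ?_
          gcongr
        · gcongr
    _ = 4 * C₁ * C₂ * ((T : ℝ) ^ (6 * e) * R * (T : ℝ) ^ (3 * e) * (Y : ℝ) ^ (1 / 3 : ℝ)) := by ring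
    _ = 4 * C₁ * C₂ * G := by rw [hexp, hG]
    _ ≤ (4 * C₁ * C₂ + 1045) * G := by nlinarith

end T9h23.Sh
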